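import Pool.Agent.R698.TC.EG

set_option autoImplicit false
set_option linter.unusedSectionVars false

namespace R698.TC

open Finset
open scoped Classical

variable {V : Type*} {G : SimpleGraph V}

/-- a path outside a longest cycle cannot join two vertices of the cycle which are close -/
theorem gap0 {c : ℕ} {z : ℕ → V} (h : Per G c z) (hno : ∀ l, c < l → ¬ HasC G Set.univ l)
    {q : ℕ} (hq : 1 ≤ q) {y : ℕ → V} (yinj : ∀ i < q, ∀ j < q, y i = y j → i = j)
    (yadj : ∀ i, i + 1 < q → G.Adj (y i) (y (i + 1))) (yout : ∀ i < q, ∀ j, y i ≠ z j)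
    {g : ℕ} (hg1 : 1 ≤ g) (hgc : g < c) (h0 : G.Adj (z 0) (y 0)) (h1 : G.Adj (z g) (y (q - 1))) :
    q + 1 ≤ g := by
  by_contra hcon
  have zinj : ∀ i, 1 ≤ i → i ≤ c → ∀ j, 1 ≤ j → j ≤ c → z i = z j → i = j := by
    intro i hi hic j hj hjc hij
    have hc0 : z c = z 0 := by
      have := h.per 0
      rwa [zero_add] at this
    by_cases h2 : i = c
    · by_cases h3 : j = c
      · omega
      · rw [h2, hc0] at hij
        have := h.inj 0 (by omega) j (by omega) hij
        omega
    · by_cases h3 : j = c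
      · rw [h3, hc0] at hij
        have := h.inj i (by omega) 0 (by omega) hij
        omega
      · exact h.inj i (by omega) j (by omega) hij
  refine hno (q + c - g + 1) (by omega)
    ⟨fun t => if t < q then y t else z (g + t - q), ⟨by omega, ?_, ?_, ?_⟩, fun _ _ => Set.mem_univ _⟩
  · intro i hi j hj hij
    try simp only at hij
    split_ifs at hij with a b b
    · exact yinj _ a _ b hij
    · exact absurd hij (yout _ a _)
    · exact absurd hij.symm (yout _ b _)
    · have := zinj _ (by omega) (by omega) _ (by omega) (by omega) hij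
      omega
  · intro i hi
    try simp only
    by_cases a : i + 1 < q
    · rw [if_pos (show i < q by omega), if_pos a]
      exact yadj i a
    · rw [if_neg a]
      by_cases b : i < q
      · rw [if_pos b, show g + (i + 1) - q = g by omega, show i = q - 1 by omega]
        exact h1.symm
      · rw [if_neg b]
        have := h.adj (g + i - q)
        rw [show g + i - q + 1 = g + (i + 1) - q by omega] at this
        exact this
  · try simp only
    rw [if_neg (show ¬ (q + c - g + 1 - 1 < q) by omega), if_pos (show 0 < q by omega),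
      show g + (q + c - g + 1 - 1) - q = 0 + c by omega, h.per]
    exact h0

theorem gap {c : ℕ} {z : ℕ → V} (h : Per G c z) (hno : ∀ l, c < l → ¬ HasC G Set.univ l)
    {q : ℕ} (hq : 1 ≤ q) {y : ℕ → V} (yinj : ∀ i < q, ∀ j < q, y i = y j → i = j)
    (yadj : ∀ i, i + 1 < q → G.Adj (y i) (y (i + 1))) (yout : ∀ i < q, ∀ j, y i ≠ z j)
    {s g : ℕ} (hg1 : 1 ≤ g) (hgc : g < c) (h0 : G.Adj (z s) (y 0))
    (h1 : G.Adj (z (s + g)) (y (q - 1))) : q + 1 ≤ g :=
  gap0 (h.shift s) hno hq yinj yadj (fun i hi j => yout i hi (s + j)) hg1 hgc (by simpa using h0) h1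

/-- the set of indices modulo `c` of the neighbours of `v`, shifted by `a` -/
noncomputable def sh (G : SimpleGraph V) (c : ℕ) (z : ℕ → V) (v : V) (a : ℕ) : Finset ℕ :=
  ((range c).filter (fun j => G.Adj v (z j))).image (fun j => (j + a) % c)

theorem sh_card {c : ℕ} {z : ℕ → V} (h : Per G c z) (v : V) (a : ℕ) :
    (sh G c z v a).card = dg G v (cs c z) := by
  rw [h.dg_cs, sh, card_image_of_injOn]
  intro i hi j hj hij
  simp only [coe_filter, mem_range, Set.mem_ofPred_eq] at hi hj
  have h2 : i + a ≡ j + a [MOD c] := hij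
  exact Nat.ModEq.eq_of_lt_of_lt (Nat.ModEq.add_right_cancel' a h2) hi.1 hj.1

theorem sh_sub {c : ℕ} {z : ℕ → V} (h : Per G c z) (v : V) (a : ℕ) : sh G c z v a ⊆ range c := by
  intro i hi
  simp only [sh, mem_image] at hi
  obtain ⟨j, _, rfl⟩ := hi
  have := h.three
  exact mem_range.2 (Nat.mod_lt _ (by omega))

/-- two shifted sets are disjoint if the difference of the shifts is a forbidden gap -/
theorem sh_disj {c : ℕ} {z : ℕ → V} (h : Per G c z) {u v : V} {a b : ℕ} (hab : a < b)
    (hbc : b < a + c)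
    (hgap : ∀ s, G.Adj v (z s) → ¬ G.Adj u (z (s + (b - a)))) :
    Disjoint (sh G c z u a) (sh G c z v b) := by
  rw [Finset.disjoint_left]
  intro i hi hj
  simp only [sh, mem_image, mem_filter, mem_range] at hi hj
  obtain ⟨j, ⟨hj1, hj2⟩, rfl⟩ := hi
  obtain ⟨k, ⟨hk1, hk2⟩, hk3⟩ := hj
  refine hgap k hk2 ?_
  have h2 : k + b ≡ j + a [MOD c] := hk3
  have h3 : (k + (b - a)) + a ≡ j + a [MOD c] := by
    rw [show k + (b - a) + a = k + b by omega]; exact h2
  have h4 : k + (b - a) ≡ j [MOD c] := Nat.ModEq.add_right_cancel' a h3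
  have h5 : z (k + (b - a)) = z j := by
    rw [h.modc, h.modc j]
    exact congrArg z h4
  rw [h5]
  exact hj2

/-- a vertex outside a longest cycle has at most `c / 2` neighbours on it -/
theorem attach_one {c : ℕ} {z : ℕ → V} (h : Per G c z) (hno : ∀ l, c < l → ¬ HasC G Set.univ l)
    {u : V} (hu : u ∉ cs c z) : 2 * dg G u (cs c z) ≤ c := by
  have hout : ∀ j, u ≠ z j := fun j hj => hu (hj ▸ h.mem_cs j)
  have h3 := h.three
  have hd : Disjoint (sh G c z u 0) (sh G c z u 1) := by
    apply sh_disj h (by omega) (by omega)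
    intro s hs hs'
    have := gap h hno (q := 1) le_rfl (y := fun _ => u) (fun i hi j hj _ => by omega)
      (fun i hi => by omega) (fun i _ j => hout j) (s := s) (g := 1) le_rfl (by omega) hs.symm hs'.symm
    omega
  have h1 := card_union_of_disjoint hd
  have h2 := card_le_card (union_subset (sh_sub h u 0) (sh_sub h u 1))
  rw [h1, sh_card h, sh_card h, card_range] at h2
  omega

/-- the two ends of a path with at least three vertices outside a longest cycle have at most `c / 2`
neighbours on it together -/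
theorem attach_two {c : ℕ} {z : ℕ → V} (h : Per G c z) (hno : ∀ l, c < l → ¬ HasC G Set.univ l)
    (hc4 : 4 ≤ c)
    {q : ℕ} (hq : 3 ≤ q) {y : ℕ → V} (yinj : ∀ i < q, ∀ j < q, y i = y j → i = j)
    (yadj : ∀ i, i + 1 < q → G.Adj (y i) (y (i + 1))) (yout : ∀ i < q, y i ∉ cs c z) :
    2 * (dg G (y 0) (cs c z) + dg G (y (q - 1)) (cs c z)) ≤ c := by
  have hout : ∀ i < q, ∀ j, y i ≠ z j := fun i hi j hj => yout i hi (hj ▸ h.mem_cs j)
  have one : ∀ u, (∀ j, u ≠ z j) → ∀ s, G.Adj u (z s) → ¬ G.Adj u (z (s + 1)) := by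
    intro u hu s hs hs'
    have := gap h hno (q := 1) le_rfl (y := fun _ => u) (fun i hi j hj _ => by omega)
      (fun i hi => by omega) (fun i _ j => hu j) (s := s) (g := 1) le_rfl (by omega) hs.symm hs'.symm
    omega
  have two : ∀ g, 1 ≤ g → g ≤ 3 → ∀ s, G.Adj (y 0) (z s) → ¬ G.Adj (y (q - 1)) (z (s + g)) := by
    intro g hg1 hg3 s hs hs'
    have := gap h hno (by omega) yinj yadj hout (s := s) (g := g) hg1 (by omega) hs.symm hs'.symm
    omega
  set I0 := sh G c z (y (q - 1)) 0
  set I1 := sh G c z (y (q - 1)) 1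
  set J2 := sh G c z (y 0) 2
  set J3 := sh G c z (y 0) 3
  have d1 : Disjoint I0 I1 := sh_disj h (by omega) (by omega) (by
    simpa using one _ (hout (q - 1) (by omega)))
  have d2 : Disjoint I0 J2 := sh_disj h (by omega) (by omega) (by simpa using two 2 (by omega) (by omega))
  have d3 : Disjoint I0 J3 := sh_disj h (by omega) (by omega) (by simpa using two 3 (by omega) (by omega))
  have d4 : Disjoint I1 J2 := sh_disj h (by omega) (by omega) (by simpa using two 1 (by omega) (by omega))
  have d5 : Disjoint I1 J3 := sh_disj h (by omega) (by omega) (by simpa using two 2 (by omega) (by omega))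
  have d6 : Disjoint J2 J3 := sh_disj h (by omega) (by omega) (by
    simpa using one _ (hout 0 (by omega)))
  have e1 := card_union_of_disjoint d1
  have e2 := card_union_of_disjoint d6
  have e3 : Disjoint (I0 ∪ I1) (J2 ∪ J3) := by
    rw [disjoint_union_left, disjoint_union_right, disjoint_union_right]
    exact ⟨⟨d2, d3⟩, d4, d5⟩
  have e4 := card_union_of_disjoint e3
  have e5 := card_le_card (union_subset (union_subset (sh_sub h (y (q - 1)) 0) (sh_sub h (y (q - 1)) 1))
    (union_subset (sh_sub h (y 0) 2) (sh_sub h (y 0) 3)))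
  change (I0 ∪ I1 ∪ (J2 ∪ J3)).card ≤ _ at e5
  rw [e4, e1, e2, card_range] at e5
  simp only [I0, I1, J2, J3, sh_card h] at e5
  omega

/-- a cycle outside a longest cycle -/
theorem attach_cycle {c c' : ℕ} {z y : ℕ → V} (h : Per G c z)
    (hno : ∀ l, c < l → ¬ HasC G Set.univ l) (hc4 : 4 ≤ c) (h' : Per G c' y)
    (yout : ∀ i, y i ∉ cs c z) :
    4 * ∑ v ∈ cs c' y, dg G v (cs c z) ≤ c' * c := by
  have h3 := h'.three
  have key : ∀ t, 2 * (dg G (y (t + 1)) (cs c z) + dg G (y t) (cs c z)) ≤ c := by
    intro t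
    have hs := h'.shift (t + 1)
    have := attach_two h hno hc4 h3 (y := fun j => y (t + 1 + j)) hs.inj
      (fun i _ => hs.adj i) (fun i _ => yout _)
    simp only [add_zero] at this
    rw [show t + 1 + (c' - 1) = t + c' by omega, h'.per] at this
    exact this
  have h1 := sum_le_sum (s := range c') (fun t _ => key t)
  rw [← mul_sum, sum_add_distrib, h'.sum_succ (fun v => dg G v (cs c z)), sum_const, card_range,
    smul_eq_mul] at h1
  rw [h'.sum_cs]
  omega

end R698.TC
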