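import Mathlib

set_option autoImplicit false
set_option linter.unusedSectionVars false

namespace R698.TC

open Finset
open scoped Classical

variable {V : Type*}

/-- the first `c` values of `x` form a cycle of `G` -/
structure Cy (G : SimpleGraph V) (c : ℕ) (x : ℕ → V) : Prop where
  three : 3 ≤ c
  inj : ∀ i < c, ∀ j < c, x i = x j → i = j
  adj : ∀ i, i + 1 < c → G.Adj (x i) (x (i + 1))
  close : G.Adj (x (c - 1)) (x 0)

/-- there is a cycle with `c` vertices inside `W` -/
def HasC (G : SimpleGraph V) (W : Set V) (c : ℕ) : Prop := ∃ x, Cy G c x ∧ ∀ i < c, x i ∈ W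

/-- periodic parametrisation of a cycle -/
structure Per (G : SimpleGraph V) (c : ℕ) (z : ℕ → V) : Prop where
  three : 3 ≤ c
  per : ∀ i, z (i + c) = z i
  inj : ∀ i < c, ∀ j < c, z i = z j → i = j
  adj : ∀ i, G.Adj (z i) (z (i + 1))

variable {G : SimpleGraph V}

theorem Per.modc {c : ℕ} {z : ℕ → V} (h : Per G c z) (i : ℕ) : z i = z (i % c) := by
  have key : ∀ k j, z (j + c * k) = z j := by
    intro k
    induction k with
    | zero => intro j; simp
    | succ k ih => intro j; rw [Nat.mul_succ, ← add_assoc, h.per, ih]
  conv_lhs => rw [← Nat.mod_add_div i c]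
  exact key _ _

theorem Cy.toPer {c : ℕ} {x : ℕ → V} (h : Cy G c x) : Per G c (fun j => x (j % c)) := by
  have h3 := h.three
  refine ⟨h3, fun i => by simp, ?_, ?_⟩
  · intro i hi j hj hij
    simp only [Nat.mod_eq_of_lt hi, Nat.mod_eq_of_lt hj] at hij
    exact h.inj i hi j hj hij
  · intro i
    have hlt : i % c < c := Nat.mod_lt _ (by omega)
    by_cases hc : i % c + 1 < c
    · have : (i + 1) % c = i % c + 1 := by
        rw [Nat.add_mod, Nat.mod_eq_of_lt (show 1 < c by omega), Nat.mod_eq_of_lt hc]
      simp only [this]
      exact h.adj _ hc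
    · have h1 : i % c = c - 1 := by omega
      have h2 : (i + 1) % c = 0 := by
        rw [Nat.add_mod, Nat.mod_eq_of_lt (show 1 < c by omega), h1]
        have : c - 1 + 1 = c := by omega
        rw [this, Nat.mod_self]
      simp only [h1, h2]
      exact h.close

theorem Per.toCy {c : ℕ} {z : ℕ → V} (h : Per G c z) : Cy G c z := by
  have h3 := h.three
  refine ⟨h3, h.inj, fun i _ => h.adj i, ?_⟩
  have := h.adj (c - 1)
  rw [show c - 1 + 1 = 0 + c by omega, h.per] at this
  exact this

theorem Per.shift {c : ℕ} {z : ℕ → V} (h : Per G c z) (i : ℕ) : Per G c (fun j => z (i + j)) := by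
  refine ⟨h.three, fun j => ?_, ?_, fun j => ?_⟩
  · show z (i + (j + c)) = z (i + j)
    rw [← add_assoc, h.per]
  · intro j hj k hk hjk
    have h3 := h.three
    change z (i + j) = z (i + k) at hjk
    rw [h.modc, h.modc (i + k)] at hjk
    have := h.inj _ (Nat.mod_lt _ (by omega)) _ (Nat.mod_lt _ (by omega)) hjk
    have h2 : i + j ≡ i + k [MOD c] := this
    have h4 := Nat.ModEq.add_left_cancel' i h2
    exact Nat.ModEq.eq_of_lt_of_lt h4 hj hk
  · exact h.adj (i + j)

/-- number of neighbours in `S` -/
noncomputable def dg (G : SimpleGraph V) (v : V) (S : Finset V) : ℕ :=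
  (S.filter (fun u => G.Adj v u)).card

/-- twice the number of edges inside `S` -/
noncomputable def DD (G : SimpleGraph V) (S : Finset V) : ℕ := ∑ v ∈ S, dg G v S

/-- the vertex set of a cycle -/
noncomputable def cs (c : ℕ) (z : ℕ → V) : Finset V := (range c).image z

theorem Per.cs_shift {c : ℕ} {z : ℕ → V} (h : Per G c z) (i : ℕ) :
    cs c (fun j => z (i + j)) = cs c z := by
  have h3 := h.three
  have h1 : cs c (fun j => z (i + j)) ⊆ cs c z := by
    intro v hv
    simp only [cs, mem_image, mem_range] at hv ⊢
    obtain ⟨j, _, rfl⟩ := hv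
    exact ⟨(i + j) % c, Nat.mod_lt _ (by omega), (h.modc _).symm⟩
  refine Finset.eq_of_subset_of_card_le h1 ?_
  have c1 : (cs c z).card = c := by
    rw [cs, card_image_of_injOn, card_range]
    intro a ha b hb hab
    exact h.inj a (by simpa using ha) b (by simpa using hb) hab
  have c2 : (cs c (fun j => z (i + j))).card = c := by
    rw [cs, card_image_of_injOn, card_range]
    intro a ha b hb hab
    exact (h.shift i).inj a (by simpa using ha) b (by simpa using hb) hab
  omega

theorem Per.card_cs {c : ℕ} {z : ℕ → V} (h : Per G c z) : (cs c z).card = c := by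
  rw [cs, card_image_of_injOn, card_range]
  intro a ha b hb hab
  exact h.inj a (by simpa using ha) b (by simpa using hb) hab

theorem Per.dg_cs {c : ℕ} {z : ℕ → V} (h : Per G c z) (v : V) :
    dg G v (cs c z) = ((range c).filter (fun j => G.Adj v (z j))).card := by
  rw [dg, cs, filter_image, card_image_of_injOn]
  intro a ha b hb hab
  simp only [coe_filter, mem_range, Set.mem_ofPred_eq] at ha hb
  exact h.inj a ha.1 b hb.1 hab

theorem Per.mem_cs {c : ℕ} {z : ℕ → V} (h : Per G c z) (i : ℕ) : z i ∈ cs c z := by
  have h3 := h.three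
  rw [h.modc i]
  exact mem_image_of_mem _ (mem_range.2 (Nat.mod_lt _ (by omega)))

/-- a sum around a cycle -/
theorem Per.sum_cs {c : ℕ} {z : ℕ → V} (h : Per G c z) (f : V → ℕ) :
    ∑ v ∈ cs c z, f v = ∑ i ∈ range c, f (z i) := by
  rw [cs, sum_image]
  intro a ha b hb hab
  exact h.inj a (by simpa using ha) b (by simpa using hb) hab

theorem Per.sum_succ {c : ℕ} {z : ℕ → V} (h : Per G c z) (f : V → ℕ) :
    ∑ i ∈ range c, f (z (i + 1)) = ∑ i ∈ range c, f (z i) := by
  have h1 := Finset.sum_range_succ' (fun i => f (z i)) c
  have h2 := Finset.sum_range_succ (fun i => f (z i)) c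
  have h3 : z c = z 0 := by
    have := h.per 0
    rwa [zero_add] at this
  rw [h1] at h2
  simp only [h3] at h2
  omega

/-- Bondy's pairing: in a cycle with `w` vertices without a cycle of length `l < w` two consecutive
vertices have at most `w` neighbours together. -/
theorem pair0 {w l : ℕ} {z : ℕ → V} (h : Per G w z) (hl : 3 ≤ l) (hlw : l < w)
    (hno : ¬ HasC G (cs w z : Set V) l) :
    dg G (z 0) (cs w z) + dg G (z 1) (cs w z) ≤ w := by
  rw [h.dg_cs, h.dg_cs]
  set A0 := (Ico 2 w).filter (fun j => G.Adj (z 0) (z j)) with hA0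
  set A1 := (Ico 2 w).filter (fun j => G.Adj (z 1) (z j)) with hA1
  have e0 : ((range w).filter (fun j => G.Adj (z 0) (z j))).card ≤ A0.card + 1 := by
    have : (range w).filter (fun j => G.Adj (z 0) (z j)) ⊆ insert 1 A0 := by
      intro j hj
      simp only [mem_filter, mem_range, mem_insert, hA0, mem_Ico] at hj ⊢
      by_cases h0 : j = 0
      · subst h0; exact absurd hj.2 (G.loopless.irrefl _)
      · by_cases h1 : j = 1
        · exact Or.inl h1
        · exact Or.inr ⟨⟨by omega, hj.1⟩, hj.2⟩
    exact (card_le_card this).trans (card_insert_le _ _)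
  have e1 : ((range w).filter (fun j => G.Adj (z 1) (z j))).card ≤ A1.card + 1 := by
    have : (range w).filter (fun j => G.Adj (z 1) (z j)) ⊆ insert 0 A1 := by
      intro j hj
      simp only [mem_filter, mem_range, mem_insert, hA1, mem_Ico] at hj ⊢
      by_cases h0 : j = 1
      · subst h0; exact absurd hj.2 (G.loopless.irrefl _)
      · by_cases h1 : j = 0
        · exact Or.inl h1
        · exact Or.inr ⟨⟨by omega, hj.1⟩, hj.2⟩
    exact (card_le_card this).trans (card_insert_le _ _)
  set φ : ℕ → ℕ := fun a => if l ≤ a + 1 then a + 3 - l else a + w + 1 - l with hφ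
  have hcard : (A0.image φ).card = A0.card := by
    apply card_image_of_injOn
    intro a ha b hb hab
    simp only [hA0, coe_filter, mem_Ico, Set.mem_ofPred_eq] at ha hb
    simp only [hφ] at hab
    split_ifs at hab <;> omega
  have hsub : A0.image φ ⊆ Ico 2 w := by
    intro b hb
    simp only [mem_image, hA0, mem_filter, mem_Ico] at hb
    obtain ⟨a, ⟨ha, _⟩, rfl⟩ := hb
    simp only [hφ, mem_Ico]
    split_ifs <;> omega
  have hdisj : Disjoint (A0.image φ) A1 := by
    rw [Finset.disjoint_left]
    intro b hb hb1
    simp only [mem_image, hA0, mem_filter, mem_Ico] at hb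
    simp only [hA1, mem_filter, mem_Ico] at hb1
    obtain ⟨a, ⟨ha, hadj⟩, rfl⟩ := hb
    obtain ⟨hbr, hadj1⟩ := hb1
    apply hno
    have hmem : ∀ i, z i ∈ (cs w z : Set V) := fun i => by exact_mod_cast h.mem_cs i
    have hback : ∀ i, G.Adj (z (i + 1)) (z i) := fun i => (h.adj i).symm
    by_cases hla : l ≤ a + 1
    · have hb' : φ a = a + 3 - l := by simp only [hφ, if_pos hla]
      rw [hb'] at hadj1
      refine ⟨fun t => z (if t = 0 then 0 else if t + 1 = l then 1 else a + 1 - t), ⟨hl, ?_, ?_, ?_⟩,
        fun i _ => hmem _⟩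
      · intro i hi j hj hij
        have := h.inj _ (by split_ifs <;> omega) _ (by split_ifs <;> omega) hij
        split_ifs at this <;> omega
      · intro i hi
        by_cases hi0 : i = 0
        · subst hi0
          rw [if_pos rfl, if_neg (by omega), if_neg (by omega)]
          exact hadj
        · rw [if_neg hi0, if_neg (by omega), if_neg (by omega)]
          by_cases hi1 : i + 1 + 1 = l
          · rw [if_pos hi1, show a + 1 - i = a + 3 - l by omega]
            exact hadj1.symm
          · rw [if_neg hi1]
            have := hback (a + 1 - (i + 1))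
            rw [show a + 1 - (i + 1) + 1 = a + 1 - i by omega] at this
            exact this
      · rw [if_neg (by omega), if_pos (by omega), if_pos rfl]
        exact hback 0
    · have hb' : φ a = a + w + 1 - l := by simp only [hφ, if_neg hla]
      rw [hb'] at hadj1
      refine ⟨fun t => z (if t = 0 then 0 else if t ≤ a then a + 1 - t else w + t - l), ⟨hl, ?_, ?_, ?_⟩,
        fun i _ => hmem _⟩
      · intro i hi j hj hij
        have := h.inj _ (by split_ifs <;> omega) _ (by split_ifs <;> omega) hij
        split_ifs at this <;> omega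
      · intro i hi
        by_cases hi0 : i = 0
        · subst hi0
          rw [if_pos rfl, if_neg (by omega), if_pos (by omega)]
          exact hadj
        · rw [if_neg hi0, if_neg (show ¬ (i + 1 = 0) by omega)]
          by_cases hia : i + 1 ≤ a
          · rw [if_pos (show i ≤ a by omega), if_pos hia]
            have := hback (a + 1 - (i + 1))
            rw [show a + 1 - (i + 1) + 1 = a + 1 - i by omega] at this
            exact this
          · rw [if_neg hia]
            by_cases hia' : i ≤ a
            · rw [if_pos hia', show a + 1 - i = 1 by omega, show w + (i + 1) - l = a + w + 1 - l by omega]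
              exact hadj1
            · rw [if_neg hia']
              have := h.adj (w + i - l)
              rw [show w + i - l + 1 = w + (i + 1) - l by omega] at this
              exact this
      · rw [if_neg (by omega), if_neg (by omega), if_pos rfl]
        have := h.adj (w - 1)
        rw [show w - 1 + 1 = 0 + w by omega, h.per] at this
        rw [show w + (l - 1) - l = w - 1 by omega]
        exact this
  have htot : (A0.image φ).card + A1.card ≤ w - 2 := by
    rw [← card_union_of_disjoint hdisj]
    refine (card_le_card (union_subset hsub (filter_subset _ _))).trans ?_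
    simp
  omega

theorem pair_sum {w l : ℕ} {z : ℕ → V} (h : Per G w z) (hl : 3 ≤ l) (hlw : l < w)
    (hno : ¬ HasC G (cs w z : Set V) l) :
    2 * DD G (cs w z) ≤ w * w := by
  have h1 : ∀ i, dg G (z i) (cs w z) + dg G (z (i + 1)) (cs w z) ≤ w := by
    intro i
    have := pair0 (h.shift i) hl hlw (by rw [h.cs_shift]; exact hno)
    rw [h.cs_shift] at this
    simpa using this
  have h2 : DD G (cs w z) = ∑ i ∈ range w, dg G (z i) (cs w z) := h.sum_cs _
  have h3 := h.sum_succ (fun v => dg G v (cs w z))
  have h4 : ∑ i ∈ range w, (dg G (z i) (cs w z) + dg G (z (i + 1)) (cs w z)) ≤ ∑ _i ∈ range w, w :=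
    sum_le_sum fun i _ => h1 i
  rw [sum_add_distrib, sum_const, card_range, smul_eq_mul] at h4
  rw [h2]
  omega

end R698.TC
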