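import Pool.Agent.R698.TC.Cyc

set_option autoImplicit false
set_option linter.unusedSectionVars false

namespace R698.TC

open Finset
open scoped Classical

variable {V : Type*} {G : SimpleGraph V}

theorem exists_greatest' (P : ℕ → Prop) (b : ℕ) (h0 : ∃ k, P k) (hb : ∀ k, P k → k ≤ b) :
    ∃ k, P k ∧ ∀ j, P j → j ≤ k := by
  obtain ⟨k, hk⟩ := h0
  exact ⟨Nat.findGreatest P b, Nat.findGreatest_spec (hb k hk) hk,
    fun j hj => Nat.le_findGreatest (hb j hj) hj⟩

theorem dg_mono {v : V} {S T : Finset V} (h : S ⊆ T) : dg G v S ≤ dg G v T :=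
  card_le_card (filter_subset_filter _ h)

theorem dg_le (v : V) (S : Finset V) : dg G v S ≤ S.card := card_filter_le _ _

theorem dg_union {v : V} {S T : Finset V} (h : Disjoint S T) :
    dg G v (S ∪ T) = dg G v S + dg G v T := by
  rw [dg, filter_union, card_union_of_disjoint]
  · rfl
  · exact disjoint_filter_filter h

theorem dg_comm (S T : Finset V) : ∑ v ∈ S, dg G v T = ∑ v ∈ T, dg G v S := by
  simp only [dg, card_filter]
  rw [sum_comm]
  simp only [SimpleGraph.adj_comm]

theorem DD_split {W Z : Finset V} (hZ : Z ⊆ W) :
    DD G W = DD G (W \ Z) + ∑ z ∈ Z, (dg G z W + dg G z (W \ Z)) := by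
  have h1 : ∀ v, dg G v W = dg G v (W \ Z) + dg G v Z := by
    intro v
    rw [← dg_union (sdiff_disjoint), sdiff_union_of_subset hZ]
  have h2 : DD G W = ∑ v ∈ W \ Z, dg G v W + ∑ v ∈ Z, dg G v W := by
    rw [DD, ← sum_sdiff hZ]
  rw [h2, sum_add_distrib]
  have h3 : ∑ v ∈ W \ Z, dg G v W = DD G (W \ Z) + ∑ v ∈ W \ Z, dg G v Z := by
    rw [sum_congr rfl (fun v _ => h1 v), sum_add_distrib, DD]
  rw [h3, dg_comm (W \ Z) Z]
  ring

/-- paths inside `W` -/
structure PathIn (G : SimpleGraph V) (W : Finset V) (p : ℕ) (x : ℕ → V) : Prop where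
  mem : ∀ i < p, x i ∈ W
  inj : ∀ i < p, ∀ j < p, x i = x j → i = j
  adj : ∀ i, i + 1 < p → G.Adj (x i) (x (i + 1))

theorem PathIn.le_card {W : Finset V} {p : ℕ} {x : ℕ → V} (h : PathIn G W p x) : p ≤ W.card := by
  have : ((range p).image x).card = p := by
    rw [card_image_of_injOn, card_range]
    intro a ha b hb hab
    exact h.inj a (by simpa using ha) b (by simpa using hb) hab
  rw [← this]
  refine card_le_card ?_
  intro v hv
  simp only [mem_image, mem_range] at hv
  obtain ⟨i, hi, rfl⟩ := hv
  exact h.mem i hi

/-- the neighbours of the first vertex of a path are among the first `c` vertices if there are no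
longer cycles -/
theorem PathIn.near {W : Finset V} {U : Set V} {p c : ℕ} {x : ℕ → V} (h : PathIn G W p x)
    (hWU : (W : Set V) ⊆ U) (hc : 2 ≤ c)
    (hno : ∀ l, c < l → ¬ HasC G U l) {j : ℕ} (hj : j < p) (hadj : G.Adj (x 0) (x j)) : j < c := by
  by_contra hcon
  refine hno (j + 1) (by omega) ⟨x, ⟨by omega, ?_, ?_, ?_⟩, ?_⟩
  · intro a ha b hb hab
    exact h.inj a (by omega) b (by omega) hab
  · intro i hi
    exact h.adj i (by omega)
  · rw [Nat.add_sub_cancel]
    exact hadj.symm
  · intro i hi
    exact hWU (h.mem i (by omega))

theorem eg_step (W : Finset V) (U : Set V) (hWU : (W : Set V) ⊆ U) (c : ℕ) (hc : 2 ≤ c)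
    (hW : W.Nonempty)
    (hno : ∀ l, c < l → ¬ HasC G U l) :
    ∃ Z ⊆ W, Z.Nonempty ∧ Z.card ≤ c ∧ DD G W ≤ DD G (W \ Z) + c * Z.card := by
  obtain ⟨v0, hv0⟩ := hW
  obtain ⟨k, ⟨p, x, hx, hp1, hk⟩, hmax⟩ := exists_greatest'
    (fun k => ∃ p x, PathIn G W p x ∧ 1 ≤ p ∧ k = p * (W.card + 1) + dg G (x 0) W)
    (W.card * (W.card + 1) + W.card)
    ⟨1 * (W.card + 1) + dg G v0 W, 1, fun _ => v0,
      ⟨fun i _ => hv0, fun i hi j hj _ => by omega, fun i hi => by omega⟩, le_rfl, rfl⟩
    (by
      rintro k ⟨p, x, hx, _, rfl⟩
      have h1 := hx.le_card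
      have h2 := dg_le (G := G) (x 0) W
      have := Nat.mul_le_mul_right (W.card + 1) h1
      omega)
  set d := dg G (x 0) W with hd
  have hdW : d ≤ W.card := dg_le _ _
  -- comparison with other paths
  have hlen : ∀ p' x', PathIn G W p' x' → 1 ≤ p' → p' ≤ p := by
    intro p' x' hx' hp'
    by_contra hcon
    have h1 := hmax _ ⟨p', x', hx', hp', rfl⟩
    have h2 : (p + 1) * (W.card + 1) ≤ p' * (W.card + 1) := Nat.mul_le_mul_right _ (by omega)
    rw [add_mul] at h2
    omega
  have hdeg : ∀ x', PathIn G W p x' → dg G (x' 0) W ≤ d := by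
    intro x' hx'
    have h1 := hmax _ ⟨p, x', hx', hp1, rfl⟩
    omega
  -- neighbours of the end are on the path
  have hon : ∀ x', PathIn G W p x' → ∀ u ∈ W, G.Adj (x' 0) u → ∃ i < p, u = x' i := by
    intro x' hx' u hu hadj
    by_contra hcon
    push Not at hcon
    have := hlen (p + 1) (fun t => if t = 0 then u else x' (t - 1)) ⟨?_, ?_, ?_⟩ (by omega)
    · omega
    · intro i hi
      try simp only
      split_ifs with h0
      · exact hu
      · exact hx'.mem _ (by omega)
    · intro i hi j hj hij
      try simp only at hij
      split_ifs at hij with h0 h1 h1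
      · omega
      · exact absurd hij (hcon _ (by omega))
      · exact absurd hij.symm (hcon _ (by omega))
      · have := hx'.inj _ (by omega) _ (by omega) hij
        omega
    · intro i hi
      try simp only
      rw [if_neg (show ¬ (i + 1 = 0) by omega)]
      by_cases h0 : i = 0
      · rw [if_pos h0, h0]
        exact hadj.symm
      · rw [if_neg h0]
        have := hx'.adj (i - 1) (by omega)
        rw [show i - 1 + 1 = i + 1 - 1 by omega] at this
        exact this
  by_cases hsmall : 2 * d ≤ c
  · refine ⟨{x 0}, by simpa using hx.mem 0 (by omega), singleton_nonempty _, by simp; omega, ?_⟩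
    rw [DD_split (Z := {x 0}) (by simpa using hx.mem 0 (by omega))]
    have h1 : dg G (x 0) (W \ {x 0}) ≤ d := dg_mono sdiff_subset
    simp only [sum_singleton, card_singleton, mul_one]
    omega
  · set Zi := (range (p - 1)).filter (fun j => G.Adj (x 0) (x (j + 1))) with hZi
    set Z := Zi.image x with hZ
    set B := (range (min c p)).image x with hB
    have hZimem : ∀ j, j ∈ Zi ↔ j + 1 < p ∧ G.Adj (x 0) (x (j + 1)) := by
      intro j
      simp only [hZi, mem_filter, mem_range]
      constructor
      · rintro ⟨h1, h2⟩; exact ⟨by omega, h2⟩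
      · rintro ⟨h1, h2⟩; exact ⟨by omega, h2⟩
    have hZW : Z ⊆ W := by
      intro v hv
      simp only [hZ, mem_image] at hv
      obtain ⟨j, hj, rfl⟩ := hv
      exact hx.mem j (by have := (hZimem j).1 hj; omega)
    have hZicard : Zi.card = d := by
      have : W.filter (fun u => G.Adj (x 0) u) = Zi.image (fun j => x (j + 1)) := by
        ext u
        simp only [mem_filter, mem_image]
        constructor
        · rintro ⟨hu, hadj⟩
          obtain ⟨i, hi, rfl⟩ := hon x hx u hu hadj
          have hi0 : i ≠ 0 := by
            rintro rfl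
            exact G.loopless.irrefl _ hadj
          refine ⟨i - 1, (hZimem _).2 ⟨by omega, ?_⟩, ?_⟩
          · rw [show i - 1 + 1 = i by omega]; exact hadj
          · rw [show i - 1 + 1 = i by omega]
        · rintro ⟨j, hj, rfl⟩
          have := (hZimem j).1 hj
          exact ⟨hx.mem _ this.1, this.2⟩
      rw [hd, dg, this, card_image_of_injOn]
      intro a ha b hb hab
      have h1 := (hZimem a).1 (by simpa using ha)
      have h2 := (hZimem b).1 (by simpa using hb)
      have := hx.inj _ h1.1 _ h2.1 hab
      omega
    have hZcard : Z.card = d := by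
      rw [← hZicard, hZ, card_image_of_injOn]
      intro a ha b hb hab
      have h1 := (hZimem a).1 (by simpa using ha)
      have h2 := (hZimem b).1 (by simpa using hb)
      exact hx.inj _ (by omega) _ (by omega) hab
    have hZB : Z ⊆ B := by
      intro v hv
      simp only [hZ, mem_image] at hv
      obtain ⟨j, hj, rfl⟩ := hv
      have h1 := (hZimem j).1 hj
      have h2 := hx.near hWU hc hno h1.1 h1.2
      simp only [hB, mem_image, mem_range]
      exact ⟨j, by omega, rfl⟩
    have hBcard : B.card ≤ c := by
      refine card_image_le.trans ?_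
      rw [card_range]
      omega
    have hdc : d ≤ c := by
      rw [← hZcard]
      exact (card_le_card hZB).trans hBcard
    -- the rotated paths
    have hrot : ∀ j ∈ Zi, PathIn G W p (fun i => if i ≤ j then x (j - i) else x i) := by
      intro j hj
      have h1 := (hZimem j).1 hj
      refine ⟨?_, ?_, ?_⟩
      · intro i hi
        try simp only
        split_ifs
        · exact hx.mem _ (by omega)
        · exact hx.mem _ hi
      · intro a ha b hb hab
        try simp only at hab
        split_ifs at hab
        · have := hx.inj _ (by omega) _ (by omega) hab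
          omega
        · have := hx.inj _ (by omega) _ (by omega) hab
          omega
        · have := hx.inj _ (by omega) _ (by omega) hab
          omega
        · exact hx.inj _ (by omega) _ (by omega) hab
      · intro i hi
        try simp only
        by_cases hij : i + 1 ≤ j
        · rw [if_pos (by omega), if_pos hij]
          have := hx.adj (j - (i + 1)) (by omega)
          rw [show j - (i + 1) + 1 = j - i by omega] at this
          exact this.symm
        · rw [if_neg hij]
          by_cases hij' : i ≤ j
          · rw [if_pos hij', show j - i = 0 by omega, show i + 1 = j + 1 by omega]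
            exact h1.2
          · rw [if_neg hij']
            exact hx.adj i hi
    refine ⟨Z, hZW, ?_, by omega, ?_⟩
    · rw [← card_pos, hZcard]; omega
    · rw [DD_split hZW]
      have key : ∀ z ∈ Z, dg G z W + dg G z (W \ Z) ≤ c := by
        intro z hz
        simp only [hZ, mem_image] at hz
        obtain ⟨j, hj, rfl⟩ := hz
        have hP := hrot j hj
        have h1 := (hZimem j).1 hj
        have h2 := hx.near hWU hc hno h1.1 h1.2
        have h3 := hdeg _ hP
        simp only [zero_le, if_true, Nat.sub_zero] at h3
        have h4 : dg G (x j) (W \ Z) ≤ (B \ Z).card := by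
          refine card_le_card ?_
          intro u hu
          simp only [mem_filter, mem_sdiff] at hu ⊢
          refine ⟨?_, hu.1.2⟩
          obtain ⟨i, hi, hui⟩ := hon _ hP u hu.1.1 (by
            simpa only [zero_le, if_true, Nat.sub_zero] using hu.2)
          have h5 : i < c := hP.near hWU hc hno hi (by
            simp only [zero_le, if_true, Nat.sub_zero]
            try simp only at hui
            rw [← hui]
            exact hu.2)
          try simp only at hui
          simp only [hB, mem_image, mem_range]
          split_ifs at hui with hij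
          · exact ⟨j - i, by omega, hui.symm⟩
          · exact ⟨i, by omega, hui.symm⟩
        rw [card_sdiff_of_subset hZB, hZcard] at h4
        omega
      have h5 := sum_le_sum key
      rw [sum_const, smul_eq_mul] at h5
      rw [mul_comm c]
      omega

/-- **Erdős–Gallai**: without cycles with more than `c` vertices a set `W` spans at most
`c (|W| - 1) / 2` edges. -/
theorem eg (U : Set V) (c : ℕ) (hc : 2 ≤ c) (hno : ∀ l, c < l → ¬ HasC G U l) :
    ∀ (n : ℕ) (W : Finset V), W.card = n → (W : Set V) ⊆ U → W.Nonempty →
      DD G W + c ≤ c * W.card := by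
  intro n
  induction n using Nat.strong_induction_on with
  | _ n ih =>
    intro W hWn hWU hWne
    by_cases hsmall : W.card ≤ c
    · have h1 : ∀ v ∈ W, dg G v W ≤ W.card - 1 := by
        intro v hv
        have : W.filter (fun u => G.Adj v u) ⊆ W.erase v := by
          intro u hu
          rw [mem_filter] at hu
          rw [mem_erase]
          exact ⟨hu.2.ne', hu.1⟩
        have := card_le_card this
        rw [card_erase_of_mem hv] at this
        exact this
      have h2 := sum_le_sum h1
      rw [sum_const, smul_eq_mul] at h2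
      have h3 : DD G W ≤ W.card * (W.card - 1) := h2
      have hpos : 0 < W.card := card_pos.2 hWne
      obtain ⟨m, hm⟩ : ∃ m, W.card = m + 1 := ⟨W.card - 1, by omega⟩
      rw [hm] at h3 hsmall ⊢
      simp only [Nat.add_sub_cancel] at h3
      nlinarith
    · obtain ⟨Z, hZW, hZne, hZc, hZ⟩ := eg_step (G := G) W U hWU c hc hWne hno
      have hZpos : 0 < Z.card := card_pos.2 hZne
      have hcard : (W \ Z).card = W.card - Z.card := card_sdiff_of_subset hZW
      have hne : (W \ Z).Nonempty := by
        rw [← card_pos, hcard]; omega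
      have h1 := ih (W \ Z).card (by omega) (W \ Z) rfl
        (fun v hv => hWU (by
          have := Finset.mem_coe.1 hv
          rw [mem_sdiff] at this
          exact this.1)) hne
      rw [hcard] at h1
      obtain ⟨m, hm⟩ : ∃ m, W.card = m + Z.card := ⟨W.card - Z.card, by omega⟩
      rw [hm, Nat.add_sub_cancel] at h1
      rw [hm, mul_add]
      omega

end R698.TC
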