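import Pool.Agent.R698.TC.Bondy

set_option autoImplicit false
set_option linter.unusedSectionVars false

namespace R698.TC

open Finset
open scoped Classical

variable {V : Type*} {G : SimpleGraph V}

theorem HasC.mono {U W : Set V} (h : U ⊆ W) {c : ℕ} (hc : HasC G U c) : HasC G W c := by
  obtain ⟨x, hx, hm⟩ := hc
  exact ⟨x, hx, fun i hi => h (hm i hi)⟩

theorem HasC.le_card {W : Finset V} {c : ℕ} (hc : HasC G (W : Set V) c) : c ≤ W.card := by
  obtain ⟨x, hx, hm⟩ := hc
  have : ((range c).image x).card = c := by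
    rw [card_image_of_injOn, card_range]
    intro a ha b hb hab
    exact hx.inj a (by simpa using ha) b (by simpa using hb) hab
  rw [← this]
  refine card_le_card ?_
  intro v hv
  simp only [mem_image, mem_range] at hv
  obtain ⟨i, hi, rfl⟩ := hv
  exact hm i hi

/-- **Bondy's theorem with the Erdős–Gallai bound**: a graph with `w` vertices and more than `w² / 4`
edges contains cycles of all lengths up to its circumference `c`, and it has at most `c (w - 1) / 2`
edges. -/
theorem bondy [Fintype V] (h : Fintype.card V * Fintype.card V < 2 * DD G univ) :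
    ∃ c, 3 ≤ c ∧ DD G univ + c ≤ c * Fintype.card V ∧
      ∀ l, 3 ≤ l → l ≤ c → HasC G Set.univ l := by
  set w := Fintype.card V with hw
  have hne : (univ : Finset V).Nonempty := by
    by_contra hcon
    rw [not_nonempty_iff_eq_empty] at hcon
    rw [hcon] at h
    simp [DD] at h
  have hwcard : (univ : Finset V).card = w := card_univ
  have huniv : ((univ : Finset V) : Set V) = Set.univ := coe_univ
  -- existence of a cycle
  have hex : ∃ k, HasC G Set.univ k := by
    by_contra hcon
    push Not at hcon
    have := eg (G := G) Set.univ 2 le_rfl (fun l _ => hcon l) _ univ rfl (by simp) hne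
    rw [hwcard] at this
    nlinarith [sq_nonneg ((w : ℤ) - 2), this, h]
  obtain ⟨c, hc, hcmax⟩ := exists_greatest' (fun k => HasC G Set.univ k) w hex
    (fun k hk => by
      rw [← hwcard]
      exact HasC.le_card (by rw [huniv]; exact hk))
  have hno : ∀ l, c < l → ¬ HasC G Set.univ l := fun l hl hh => by
    have := hcmax l hh; omega
  obtain ⟨x, hx, -⟩ := hc
  have hc3 : 3 ≤ c := hx.three
  have hEG := eg (G := G) Set.univ c (by omega) hno _ univ rfl (by simp) hne
  rw [hwcard] at hEG
  refine ⟨c, hc3, hEG, ?_⟩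
  by_contra hcon
  push Not at hcon
  obtain ⟨l, hl3, hlc, hl⟩ := hcon
  have hlc' : l < c := by
    rcases lt_or_eq_of_le hlc with h1 | h1
    · exact h1
    · exact absurd ⟨x, h1 ▸ hx, fun _ _ => Set.mem_univ _⟩ hl
  have hz := hx.toPer
  set z : ℕ → V := fun j => x (j % c) with hzdef
  have ha := pair_sum hz hl3 hlc' (fun hh => hl (hh.mono (Set.subset_univ _)))
  set C := cs c z with hC
  set H := univ \ C with hH
  have hCc : C.card = c := hz.card_cs
  have hHc : H.card = w - c := by
    rw [hH, card_sdiff_of_subset (subset_univ _), hwcard, hCc]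
  have hcw : c ≤ w := by rw [← hCc, ← hwcard]; exact card_le_card (subset_univ _)
  have hCH : univ \ H = C := by
    rw [hH]; simp
  have hdgH : ∀ v, dg G v univ = dg G v C + dg G v H := by
    intro v
    rw [hH, ← dg_union (disjoint_sdiff), union_sdiff_of_subset (subset_univ _)]
  have hsplit : DD G univ = DD G C + 2 * ∑ v ∈ H, dg G v C + DD G H := by
    rw [DD_split (subset_univ H), hCH, sum_congr rfl (fun v _ => by rw [hdgH v]), sum_add_distrib,
      sum_add_distrib]
    simp only [DD]
    ring
  have hone : ∀ v ∈ H, 2 * dg G v C ≤ c := by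
    intro v hv
    apply attach_one hz hno
    rw [hH, mem_sdiff] at hv
    exact hv.2
  set r := w - c with hr
  have hwr : w = c + r := by omega
  have hlt : r < c := by
    by_contra hcon
    have : 2 * c ≤ w := by omega
    nlinarith [hEG, h, hc3, this]
  by_cases hHne : H.Nonempty
  swap
  · rw [not_nonempty_iff_eq_empty] at hHne
    rw [hHne] at hsplit hHc
    simp only [sum_empty, DD, mul_zero, add_zero, card_empty] at hsplit hHc
    have hwc : w = c := by omega
    simp only [DD] at h ha
    rw [hsplit, hwc] at h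
    omega
  by_cases hcyc : ∃ k, HasC G (H : Set V) k
  swap
  · push Not at hcyc
    have hE := eg (G := G) (H : Set V) 2 le_rfl (fun l _ => hcyc l) _ H rfl le_rfl hHne
    rw [hHc] at hE
    have hs : 2 * ∑ v ∈ H, dg G v C ≤ r * c := by
      rw [mul_sum]
      refine (sum_le_sum hone).trans ?_
      rw [sum_const, hHc, smul_eq_mul]
    have hr2 : 4 * r ≤ r * r + 4 := by nlinarith [sq_nonneg ((r : ℤ) - 2)]
    rw [hwr] at h
    nlinarith
  · obtain ⟨c', hc', hcmax'⟩ := exists_greatest' (fun k => HasC G (H : Set V) k) r hcyc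
      (fun k hk => by
        rw [← hHc]
        exact HasC.le_card hk)
    have hno' : ∀ l, c' < l → ¬ HasC G (H : Set V) l := fun l hl hh => by
      have := hcmax' l hh; omega
    obtain ⟨x', hx', hxm'⟩ := hc'
    have hc3' : 3 ≤ c' := hx'.three
    have hcr' : c' ≤ r := by
      rw [← hHc]
      exact HasC.le_card ⟨x', hx', hxm'⟩
    have hE := eg (G := G) (H : Set V) c' (by omega) hno' _ H rfl le_rfl hHne
    rw [hHc] at hE
    have hy := hx'.toPer
    set y : ℕ → V := fun j => x' (j % c') with hydef
    have hyout : ∀ i, y i ∈ H := fun i => hxm' _ (Nat.mod_lt _ (by omega))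
    have hatt := attach_cycle hz hno (by omega) hy (fun i => by
      have := hyout i
      rw [hH, mem_sdiff] at this
      exact this.2)
    rw [← hC] at hatt
    have hsub : cs c' y ⊆ H := by
      intro v hv
      simp only [cs, mem_image] at hv
      obtain ⟨i, _, rfl⟩ := hv
      exact hyout i
    have hs : ∑ v ∈ H, dg G v C = ∑ v ∈ H \ cs c' y, dg G v C + ∑ v ∈ cs c' y, dg G v C := by
      rw [sum_sdiff hsub]
    have hs2 : 2 * ∑ v ∈ H \ cs c' y, dg G v C ≤ (r - c') * c := by
      rw [mul_sum]
      refine (sum_le_sum (fun v hv => hone v (mem_sdiff.1 hv).1)).trans ?_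
      rw [sum_const, card_sdiff_of_subset hsub, hHc, hy.card_cs, smul_eq_mul]
    obtain ⟨t, ht⟩ : ∃ t, r = c' + t := ⟨r - c', by omega⟩
    rw [ht, Nat.add_sub_cancel_left] at hs2
    rw [hwr, ht] at h
    rw [ht] at hE hlt
    have k1 : 4 * ∑ v ∈ H, dg G v C ≤ 2 * (t * c) + c' * c := by
      rw [hs]; omega
    have k2 : 2 * DD G univ ≤ c * c + (2 * (t * c) + c' * c) + 2 * DD G H := by
      rw [hsplit]; omega
    nlinarith [k1, k2, hE, hlt, hc3', mul_le_mul_of_nonneg_left hlt.le (Nat.zero_le c')]

/-- number of edges -/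
theorem DD_univ [Fintype V] [DecidableRel G.Adj] : DD G univ = 2 * G.edgeFinset.card := by
  rw [← G.sum_degrees_eq_twice_card_edges, DD]
  refine sum_congr rfl fun v _ => ?_
  rw [dg, ← SimpleGraph.card_neighborFinset_eq_degree]
  congr 1
  ext u
  simp

/-- all cycles up to length `n + 1` -/
theorem cycles [Fintype V] [DecidableRel G.Adj] (n : ℕ) (hV : Fintype.card V + 1 = 2 * n)
    (h : n * Fintype.card V ≤ 2 * G.edgeFinset.card) (m : ℕ) (hm : 3 ≤ m) (hmn : m ≤ n + 1) :
    HasC G Set.univ m := by
  have hD : n * Fintype.card V ≤ DD G univ := by rw [DD_univ]; exact h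
  set w := Fintype.card V with hw
  obtain ⟨k, hk⟩ : ∃ k, n = k + 1 := ⟨n - 1, by omega⟩
  have hw2 : w = 2 * k + 1 := by omega
  obtain ⟨c, hc3, hc, hall⟩ := bondy (G := G) (by
    rw [← hw]
    rw [hw2, hk] at hD
    rw [hw2]
    nlinarith)
  refine hall m hm (le_trans hmn ?_)
  rw [← hw] at hc
  by_contra hcon
  rw [hw2, hk] at hD
  rw [hw2] at hc
  have : c ≤ k + 1 := by omega
  nlinarith

end R698.TC
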